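import Pool.Agent.H9.SymbPow.Local

/-!
# Failure of the Harbourne-Huneke containment for the germ of a monomial curve
-/

namespace Pool.Agent.Results.MP_48a29b_ag.HarbourneHunekeFailsCharTwo

open Pool.Agent.H9.SymbPow IsLocalRing

/-- The Harbourne-Huneke statement Q1 is false; more precisely, over every field of
characteristic two there is a regular local algebra `R` of dimension four with a prime ideal `I`
such that the fourth symbolic power of `I` is not contained in `𝔪 ^ 3 * I` (`n = 4`, `r = 1`,
`m = 4`). -/
theorem result :
    ¬ HarbourneHuneke ∧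
    ∀ (k : Type) [Field k] [CharP k 2],
      ∃ (R : Type) (_ : CommRing R) (_ : IsRegularLocalRing R) (_ : Algebra k R) (I : Ideal R),
        ringKrullDim R = 4 ∧ I.IsPrime ∧ ¬ symb I 4 ≤ maximalIdeal R ^ 3 * I := by
  refine ⟨not_HH, ?_⟩
  intro k _ _
  exact ⟨R k, inferInstance, inferInstance, inferInstance, I k, dim_R k, I_prime k,
    not_symb_le k⟩

end Pool.Agent.Results.MP_48a29b_ag.HarbourneHunekeFailsCharTwo
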